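import Pool.Agent.N455.FAT.Orbits

/-!
For every positive integer `b` there is a finite connected simple graph with exactly `b` irreducible
FAT colourings, counted as partitions of the vertex set up to automorphisms of the graph.

The graph consists of `2 b - 1` copies of the bowtie (two triangles with a common vertex), glued at
a vertex of degree two of the bowtie.
-/

set_option autoImplicit false

namespace Pool.Agent.Results.MP_48b99b_co.AllCounts

open Pool.Agent.N455.FAT

/-- For every `b ≥ 1` some finite connected graph has exactly `b` irreducible FAT colourings
(up to automorphisms of the graph). -/
theorem result : ∀ b : ℕ, 1 ≤ b → ∃ (V : Type) (_ : Finite V) (G : SimpleGraph V),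
    G.Connected ∧ Nat.card (Quotient (autSetoid G)) = b :=
  fun b hb => ⟨Option (Fin (2 * b - 1) × Fin 4), inferInstance, W (2 * b - 1), connected _,
    main b hb⟩

end Pool.Agent.Results.MP_48b99b_co.AllCounts
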